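import Mathlib
import Pool.Agent.Lib_helper66.GapFree.Coho
import Pool.Agent.Lib_helper95.PowerHomology

/-!
# Combinatorial Alexander duality between `AV` (homology) and `CV` (cohomology)
-/

open Finset Pool.Agent.LibHelper95.Reg Pool.Agent.H66.GapFree

namespace Pool.Agent.LibHelper95.Gap

set_option linter.unusedSectionVars false

variable {V : Type*} [Fintype V] [LinearOrder V] {k : Type*} [Field k]

/-- The duality sign. -/
def ep (k : Type*) [Field k] (W F : Finset V) : k := ∏ v ∈ F, sgn k v W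

theorem ep_sq (W F : Finset V) : ep k W F * ep k W F = 1 := by
  unfold ep
  rw [← Finset.prod_mul_distrib]
  exact Finset.prod_eq_one fun v _ => sgn_sq v W

theorem ep_ne_zero (W F : Finset V) : ep k W F ≠ 0 := by
  intro h
  have := ep_sq (k := k) W F
  rw [h] at this
  simp at this

theorem sgn_split {W F : Finset V} (hF : F ⊆ W) (v : V) :
    sgn k v F = sgn k v W * sgn k v (W \ F) := by
  unfold sgn
  have h1 : (W.filter (· < v)).card = (F.filter (· < v)).card + ((W \ F).filter (· < v)).card := by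
    rw [← Finset.card_union_of_disjoint]
    · congr 1
      ext x
      simp only [Finset.mem_filter, Finset.mem_union, Finset.mem_sdiff]
      constructor
      · rintro ⟨h1, h2⟩
        by_cases h3 : x ∈ F
        · exact Or.inl ⟨h3, h2⟩
        · exact Or.inr ⟨⟨h1, h3⟩, h2⟩
      · rintro (⟨h1, h2⟩ | ⟨⟨h1, h3⟩, h2⟩)
        · exact ⟨hF h1, h2⟩
        · exact ⟨h1, h2⟩
    · rw [Finset.disjoint_left]
      intro x hx hx'
      exact (Finset.mem_sdiff.1 (Finset.mem_filter.1 hx').1).2 (Finset.mem_filter.1 hx).1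
  rw [h1, pow_add, mul_assoc, ← pow_add, ← two_mul, pow_mul]
  simp

theorem ep_erase {W F : Finset V} (hF : F ⊆ W) {v : V} (hv : v ∈ F) :
    sgn k v F * ep k W (F.erase v) = ep k W F * sgn k v (W \ F) := by
  have h1 : ep k W F = sgn k v W * ep k W (F.erase v) := by
    unfold ep
    exact (Finset.mul_prod_erase F (fun v => sgn k v W) hv).symm
  rw [h1, sgn_split (k := k) hF v]
  ring

/-- The dual cochain of a chain. -/
def du (W : Finset V) (ψ : Finset V → k) (F : Finset V) : k := ep k W F * ψ (W \ F)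

theorem cob_du {W : Finset V} {ψ : Finset V → k} (hψ : ∀ S, ψ S ≠ 0 → S ⊆ W) {F : Finset V}
    (hF : F ⊆ W) : cob (du W ψ) F = ep k W F * bd ψ (W \ F) := by
  unfold cob bd
  rw [Finset.mul_sum]
  have hsub : F ⊆ (W \ F)ᶜ := by
    intro v hv
    simp [hv]
  rw [← Finset.sum_subset hsub]
  · refine Finset.sum_congr rfl fun v hv => ?_
    unfold du
    have h1 : W \ F.erase v = insert v (W \ F) := by
      ext x
      simp only [Finset.mem_sdiff, Finset.mem_erase, Finset.mem_insert, not_and_or, not_not]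
      constructor
      · rintro ⟨h1, h2 | h2⟩
        · exact Or.inl h2
        · exact Or.inr ⟨h1, h2⟩
      · rintro (h | ⟨h1, h2⟩)
        · exact ⟨h ▸ hF hv, Or.inl h⟩
        · exact ⟨h1, Or.inr h2⟩
    rw [h1, ← mul_assoc, ep_erase hF hv]
    ring
  · intro v hv hvF
    have hvW : v ∉ W := by
      intro h
      rw [Finset.mem_compl] at hv
      exact hv (Finset.mem_sdiff.2 ⟨h, hvF⟩)
    have h0 : ψ (insert v (W \ F)) = 0 := by
      by_contra h
      exact hvW (hψ _ h (Finset.mem_insert_self _ _))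
    rw [h0, mul_zero, mul_zero]

theorem card_sdiff_int {W F : Finset V} (hF : F ⊆ W) :
    ((W \ F).card : ℤ) = W.card - F.card := by
  have := Finset.card_sdiff_add_card_eq_card hF
  omega

theorem bd_eq_zero {φ : Finset V → k} {S : Finset V} (h : ∀ v, v ∉ S → φ (insert v S) = 0) :
    bd φ S = 0 := by
  unfold bd
  refine Finset.sum_eq_zero fun v hv => ?_
  rw [h v (by simpa using hv), mul_zero]

/-- Alexander duality, `CV ⇒ AV`. -/
theorem AV_of_CV {W : Finset V} (hW : W.Nonempty) {K D : Finset V → Prop}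
    (hKW : ∀ S, K S → S ⊆ W)
    (hD : ∀ F, D F ↔ F ⊆ W ∧ ¬ K (W \ F)) {i : ℕ} {j : ℤ} (hij : (i : ℤ) + j + 2 = W.card)
    (h : CV k D j) : AV k K i := by
  classical
  obtain ⟨w, hw⟩ := hW
  intro φ hφ hφ0
  set ψ0 : Finset V → k := cn w φ with hψ0
  have hψs : ∀ S, ψ0 S ≠ 0 → S ⊆ W ∧ S.card = i + 1 := by
    intro S hS
    rw [hψ0] at hS
    unfold cn at hS
    by_cases hj : w ∈ S
    · rw [if_pos hj] at hS
      have h0 : φ (S.erase w) ≠ 0 := fun h0 => hS (by rw [h0, mul_zero])
      obtain ⟨h1, h2⟩ := hφ _ h0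
      refine ⟨?_, ?_⟩
      · intro x hx
        by_cases hxw : x = w
        · exact hxw ▸ hw
        · exact hKW _ h1 (Finset.mem_erase.2 ⟨hxw, hx⟩)
      · rw [Finset.card_erase_of_mem hj] at h2
        have : 0 < S.card := Finset.card_pos.2 ⟨w, hj⟩
        omega
    · rw [if_neg hj] at hS
      exact absurd rfl hS
  have hbd : ∀ S, bd ψ0 S = φ S := by
    intro S
    have h1 := cn_bd w φ S
    have h2 : cn w (bd φ) S = 0 := by
      unfold cn
      split_ifs
      · rw [hφ0, mul_zero]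
      · rfl
    rw [h2, add_zero] at h1
    exact h1
  obtain ⟨χ, hχ⟩ := h (du W ψ0) (by
    intro F hF hc
    obtain ⟨hF1, hF2⟩ := (hD F).1 hF
    rw [cob_du (fun S hS => (hψs S hS).1) hF1, hbd]
    have : φ (W \ F) = 0 := by
      by_contra h0
      exact hF2 (hφ _ h0).1
    rw [this, mul_zero])
  set ω : Finset V → k := fun S => if S ⊆ W ∧ S.card = i + 2 then ep k W (W \ S) * χ (W \ S) else 0
    with hω
  have hωs : ∀ S, ω S ≠ 0 → S ⊆ W ∧ S.card = i + 2 := by
    intro S hS
    by_contra hc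
    exact hS (if_neg hc)
  have hkey : ∀ S, S ⊆ W → S.card = i + 1 → ¬ K S → ψ0 S = bd ω S := by
    intro S hSW hSc hSK
    have hF1 : W \ S ⊆ W := Finset.sdiff_subset
    have hSS : W \ (W \ S) = S := by
      rw [Finset.sdiff_sdiff_eq_self hSW]
    have hDF : D (W \ S) := (hD _).2 ⟨hF1, by rw [hSS]; exact hSK⟩
    have hc := card_sdiff_int hSW
    have h1 := hχ (W \ S) hDF (by omega)
    have h2 : cob χ (W \ S) = cob (du W ω) (W \ S) := by
      refine cob_congr fun v hv => ?_
      have hvW := hF1 hv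
      have h3 : (W \ S).erase v ⊆ W := (Finset.erase_subset _ _).trans hF1
      have h4 : ((W \ ((W \ S).erase v)) ⊆ W ∧ (W \ ((W \ S).erase v)).card = i + 2) := by
        refine ⟨Finset.sdiff_subset, ?_⟩
        have h5 := card_sdiff_int h3
        have h6 := Finset.card_erase_add_one hv
        omega
      show _ = ep k W ((W \ S).erase v) * ω (W \ ((W \ S).erase v))
      rw [hω]
      simp only
      rw [if_pos h4, Finset.sdiff_sdiff_eq_self h3, ← mul_assoc, ep_sq, one_mul]
    rw [h2, cob_du (fun S hS => (hωs S hS).1) hF1, hSS] at h1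
    unfold du at h1
    rw [hSS] at h1
    exact mul_left_cancel₀ (ep_ne_zero W (W \ S)) h1
  refine ⟨fun S => ψ0 S - bd ω S, fun S hS => ?_, fun S => ?_⟩
  · have hsup : S ⊆ W ∧ S.card = i + 1 := by
      by_cases hp : ψ0 S = 0
      · have h1 : bd ω S ≠ 0 := by
          intro h0; apply hS; show ψ0 S - bd ω S = 0; rw [hp, h0, sub_zero]
        refine ⟨down_of_bd_ne (D := fun S => S ⊆ W) (fun v S h => (Finset.subset_insert _ _).trans h)
          (fun S hS => (hωs S hS).1) S h1, ?_⟩
        exact card_of_bd_ne (i := i + 1) (fun S hS => (hωs S hS).2) S h1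
      · exact hψs S hp
    refine ⟨?_, hsup.2⟩
    by_contra hc
    exact hS (by show ψ0 S - bd ω S = 0; rw [hkey S hsup.1 hsup.2 hc, sub_self])
  · rw [bd_sub ψ0 (bd ω), bd_bd, sub_zero, hbd]

/-- Alexander duality, `AV ⇒ CV`. -/
theorem CV_of_AV {W : Finset V} (hW : W.Nonempty) {K D : Finset V → Prop}
    (hK : ∀ v S, K (insert v S) → K S) (hKW : ∀ S, K S → S ⊆ W)
    (hD : ∀ F, D F ↔ F ⊆ W ∧ ¬ K (W \ F)) {i : ℕ} {j : ℤ} (hij : (i : ℤ) + j + 2 = W.card)
    (h : AV k K i) : CV k D j := by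
  classical
  obtain ⟨w, hw⟩ := hW
  intro φ hφ
  set ψ0 : Finset V → k := fun S => if S ⊆ W ∧ S.card = i + 1 ∧ ¬ K S then
    ep k W (W \ S) * φ (W \ S) else 0 with hψ0
  have hψs : ∀ S, ψ0 S ≠ 0 → S ⊆ W ∧ S.card = i + 1 ∧ ¬ K S := by
    intro S hS
    by_contra hc
    exact hS (if_neg hc)
  have hbd : ∀ S, bd ψ0 S ≠ 0 → K S := by
    intro S hS
    by_contra hc
    have hSW : S ⊆ W := down_of_bd_ne (D := fun S => S ⊆ W)
      (fun v S h => (Finset.subset_insert _ _).trans h) (fun S hS => (hψs S hS).1) S hS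
    have hSc : S.card = i := card_of_bd_ne (fun S hS => (hψs S hS).2.1) S hS
    have hF1 : W \ S ⊆ W := Finset.sdiff_subset
    have hSS : W \ (W \ S) = S := by
      rw [Finset.sdiff_sdiff_eq_self hSW]
    have hDF : D (W \ S) := (hD _).2 ⟨hF1, by rw [hSS]; exact hc⟩
    have hcc := card_sdiff_int hSW
    have h1 := hφ (W \ S) hDF (by omega)
    have h2 : cob φ (W \ S) = cob (du W ψ0) (W \ S) := by
      refine cob_congr fun v hv => ?_
      have hvW := hF1 hv
      have h3 : (W \ S).erase v ⊆ W := (Finset.erase_subset _ _).trans hF1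
      have h7 : W \ ((W \ S).erase v) = insert v S := by
        ext x
        simp only [Finset.mem_sdiff, Finset.mem_erase, Finset.mem_insert, not_and_or, not_not]
        constructor
        · rintro ⟨h1, h2 | h2 | h2⟩
          · exact Or.inl h2
          · exact absurd h1 h2
          · exact Or.inr h2
        · rintro (h | h)
          · exact ⟨h ▸ hvW, Or.inl h⟩
          · exact ⟨hSW h, Or.inr (Or.inr h)⟩
      have h4 : ((W \ ((W \ S).erase v)) ⊆ W ∧ (W \ ((W \ S).erase v)).card = i + 1 ∧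
          ¬ K (W \ ((W \ S).erase v))) := by
        refine ⟨Finset.sdiff_subset, ?_, ?_⟩
        · have h5 := card_sdiff_int h3
          have h6 := Finset.card_erase_add_one hv
          omega
        · rw [h7]
          exact fun h => hc (hK v S h)
      show _ = ep k W ((W \ S).erase v) * ψ0 (W \ ((W \ S).erase v))
      rw [hψ0]
      simp only
      rw [if_pos h4, Finset.sdiff_sdiff_eq_self h3, ← mul_assoc, ep_sq, one_mul]
    rw [h2, cob_du (fun S hS => (hψs S hS).1) hF1, hSS] at h1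
    exact hS ((mul_eq_zero.1 h1).resolve_left (ep_ne_zero W (W \ S)))
  obtain ⟨ψ1, hψ1, hψ1'⟩ := h (bd ψ0) (fun S hS => ⟨hbd S hS,
    card_of_bd_ne (fun S hS => (hψs S hS).2.1) S hS⟩) (fun S => bd_bd ψ0 S)
  set θ : Finset V → k := fun S => ψ0 S - ψ1 S with hθ
  have hθs : ∀ S, θ S ≠ 0 → S ⊆ W := by
    intro S hS
    by_cases hp : ψ0 S = 0
    · have : ψ1 S ≠ 0 := by
        intro h0; apply hS; rw [hθ]; simp only; rw [hp, h0, sub_zero]
      exact hKW _ (hψ1 S this).1
    · exact (hψs S hp).1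
  have hθ0 : ∀ S, bd θ S = 0 := by
    intro S
    rw [hθ, bd_sub ψ0 ψ1, hψ1', sub_self]
  set ω : Finset V → k := cn w θ with hω
  have hωs : ∀ S, ω S ≠ 0 → S ⊆ W := by
    intro S hS
    rw [hω] at hS
    unfold cn at hS
    by_cases hj : w ∈ S
    · rw [if_pos hj] at hS
      have h0 : θ (S.erase w) ≠ 0 := fun h0 => hS (by rw [h0, mul_zero])
      have h1 := hθs _ h0
      intro x hx
      by_cases hxw : x = w
      · exact hxw ▸ hw
      · exact h1 (Finset.mem_erase.2 ⟨hxw, hx⟩)
    · rw [if_neg hj] at hS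
      exact absurd rfl hS
  have hbdω : ∀ S, bd ω S = θ S := by
    intro S
    have h1 := cn_bd w θ S
    have h2 : cn w (bd θ) S = 0 := by
      unfold cn
      split_ifs
      · rw [hθ0, mul_zero]
      · rfl
    rw [h2, add_zero] at h1
    exact h1
  refine ⟨du W ω, fun F hF hc => ?_⟩
  obtain ⟨hF1, hF2⟩ := (hD F).1 hF
  rw [cob_du hωs hF1, hbdω, hθ]
  simp only
  have h1 : ψ1 (W \ F) = 0 := by
    by_contra h0
    exact hF2 (hψ1 _ h0).1
  have h2 : (W \ F) ⊆ W ∧ (W \ F).card = i + 1 ∧ ¬ K (W \ F) := by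
    refine ⟨Finset.sdiff_subset, ?_, hF2⟩
    have := card_sdiff_int hF1
    omega
  rw [h1, sub_zero, hψ0]
  simp only
  rw [if_pos h2, Finset.sdiff_sdiff_eq_self hF1, ← mul_assoc, ep_sq, one_mul]

/-- No cohomology in or above the top dimension of a nonempty vertex set. -/
theorem CV_top {W : Finset V} (hW : W.Nonempty) {D : Finset V → Prop} (hD : Down D)
    (hDW : ∀ F, D F → F ⊆ W) {j : ℤ} (hj : (W.card : ℤ) ≤ j + 1) : CV k D j := by
  by_cases h : D W
  · obtain ⟨w, hw⟩ := hW
    refine CV_cone w (fun S hS => hD _ W ?_ h) j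
    exact Finset.insert_subset hw (hDW _ hS)
  · refine CV_of_card fun S hS hc => ?_
    have h1 := hDW S hS
    have h2 : S = W := Finset.eq_of_subset_of_card_le h1 (by omega)
    exact h (h2 ▸ hS)

end Pool.Agent.LibHelper95.Gap
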