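import Mathlib
import Pool.Agent.Lib_helper95.Gap.Dual

/-!
# The passage between exponents `1` and `∞`
-/

open Finset Pool.Agent.LibHelper95.Reg Pool.Agent.H66.GapFree

namespace Pool.Agent.LibHelper95.Gap

set_option linter.unusedSectionVars false

variable {V : Type*} [Fintype V] [LinearOrder V] {k : Type*} [Field k]

/-- The exponent `c`, increased by one on `F \ T` and by `N` on `F ∩ T`. -/
def pt (c : V → ℕ) (T F : Finset V) (N : ℕ) (x : V) : ℕ :=
  c x + if x ∈ F then (if x ∈ T then N else 1) else 0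

/-- Faces: subsets `F` of `W` for which `pt c T F N` is never in `J`. -/
def XX (J : Set (V → ℕ)) (W T : Finset V) (c : V → ℕ) (F : Finset V) : Prop :=
  F ⊆ W ∧ ¬ ∃ N, pt c T F N ∈ J

/-- Upward closed set of exponents. -/
def UpC (J : Set (V → ℕ)) : Prop := ∀ f ∈ J, ∀ g : V → ℕ, (∀ x, f x ≤ g x) → g ∈ J

variable {J : Set (V → ℕ)} (hJ : UpC J)

include hJ in
theorem XX_down (W T : Finset V) (c : V → ℕ) : Down (XX J W T c) := by
  rintro S S' hS ⟨h1, h2⟩
  refine ⟨hS.trans h1, fun ⟨N, hN⟩ => h2 ⟨N, hJ _ hN _ fun x => ?_⟩⟩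
  unfold pt
  beta_reduce
  by_cases h3 : x ∈ S
  · rw [if_pos h3, if_pos (hS h3)]
  · rw [if_neg h3]; omega

theorem XX_sub {W T : Finset V} {c : V → ℕ} {F : Finset V} (h : XX J W T c F) : F ⊆ W := h.1

/-- The complex with `v` at infinity. -/
def LL (J : Set (V → ℕ)) (W T : Finset V) (c : V → ℕ) (v : V) (F : Finset V) : Prop :=
  F ⊆ W ∧ ¬ ∃ N, pt (fun x => c x + N * dl v x) T F N ∈ J

include hJ in
theorem LL_succ {W T : Finset V} {c : V → ℕ} {v : V} :
    LL J W T (fun x => c x + dl v x) v = LL J W T c v := by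
  funext F
  refine propext (and_congr_right fun _ => not_congr ⟨?_, ?_⟩)
  · rintro ⟨N, hN⟩
    refine ⟨N + 1, hJ _ hN _ fun x => ?_⟩
    show (c x + dl v x) + N * dl v x + _ ≤ c x + (N + 1) * dl v x + _
    have : (N + 1) * dl v x = N * dl v x + dl v x := by ring
    split_ifs <;> omega
  · rintro ⟨N, hN⟩
    refine ⟨N, hJ _ hN _ fun x => ?_⟩
    show c x + N * dl v x + _ ≤ (c x + dl v x) + N * dl v x + _
    split_ifs <;> omega

include hJ in
theorem LL_add {W T : Finset V} {c : V → ℕ} {v : V} (m : ℕ) :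
    LL J W T (fun x => c x + m * dl v x) v = LL J W T c v := by
  induction m with
  | zero => simp
  | succ m ih =>
    rw [← ih, ← LL_succ hJ (c := fun x => c x + m * dl v x)]
    congr 1
    funext x
    ring

include hJ in
theorem XX_of_LL {W T : Finset V} {c : V → ℕ} {v : V} {F : Finset V} (h : LL J W T c v F) :
    XX J W T c F := by
  refine ⟨h.1, fun ⟨N, hN⟩ => h.2 ⟨N, hJ _ hN _ fun x => ?_⟩⟩
  unfold pt
  beta_reduce
  omega

include hJ in
theorem XX_succ {W T : Finset V} {c : V → ℕ} {v : V} {F : Finset V}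
    (h : XX J W T (fun x => c x + dl v x) F) : XX J W T c F := by
  refine ⟨h.1, fun ⟨N, hN⟩ => h.2 ⟨N, hJ _ hN _ fun x => ?_⟩⟩
  unfold pt
  beta_reduce
  omega

theorem XX_eq_Cn {W T : Finset V} {c : V → ℕ} {v : V} (hv : v ∈ W) (hvT : v ∉ T) :
    XX J W T c = Cn v (XX J (W.erase v) T c) (XX J (W.erase v) T (fun x => c x + dl v x)) := by
  funext S
  refine propext ?_
  unfold Cn
  by_cases hS : v ∈ S
  · rw [if_pos hS]
    have e : ∀ N, pt (fun x => c x + dl v x) T (S.erase v) N = pt c T S N := by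
      intro N
      funext x
      unfold pt
      beta_reduce
      by_cases hx : x = v
      · subst hx
        rw [if_neg (Finset.notMem_erase x S), if_pos hS, if_neg hvT, dl_self]
      · rw [dl_ne hx]
        by_cases hxS : x ∈ S
        · rw [if_pos (Finset.mem_erase.2 ⟨hx, hxS⟩), if_pos hxS]; omega
        · rw [if_neg (fun h => hxS (Finset.mem_of_mem_erase h)), if_neg hxS]
    constructor
    · rintro ⟨h1, h2⟩
      refine ⟨Finset.erase_subset_erase _ h1, fun ⟨N, hN⟩ => h2 ⟨N, ?_⟩⟩
      rw [← e]; exact hN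
    · rintro ⟨h1, h2⟩
      refine ⟨fun x hx => ?_, fun ⟨N, hN⟩ => h2 ⟨N, ?_⟩⟩
      · by_cases hxv : x = v
        · exact hxv ▸ hv
        · exact Finset.mem_of_mem_erase (h1 (Finset.mem_erase.2 ⟨hxv, hx⟩))
      · rw [e]; exact hN
  · rw [if_neg hS]
    refine and_congr_left fun _ => ⟨fun h x hx => Finset.mem_erase.2 ⟨fun h' => hS (h' ▸ hx), h hx⟩,
      fun h => h.trans (Finset.erase_subset _ _)⟩

theorem XX_insert_eq_Cn {W T : Finset V} {c : V → ℕ} {v : V} (hv : v ∈ W) (hvT : v ∉ T) :
    XX J W (insert v T) c = Cn v (XX J (W.erase v) T c) (LL J (W.erase v) T c v) := by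
  funext S
  refine propext ?_
  unfold Cn
  by_cases hS : v ∈ S
  · rw [if_pos hS]
    have e : ∀ N, pt (fun x => c x + N * dl v x) T (S.erase v) N = pt c (insert v T) S N := by
      intro N
      funext x
      unfold pt
      beta_reduce
      by_cases hx : x = v
      · subst hx
        rw [if_neg (Finset.notMem_erase x S), if_pos hS, if_pos (Finset.mem_insert_self _ _),
          dl_self]
        ring
      · rw [dl_ne hx]
        have hT : x ∈ insert v T ↔ x ∈ T := by
          rw [Finset.mem_insert]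
          exact or_iff_right hx
        by_cases hxS : x ∈ S
        · rw [if_pos (Finset.mem_erase.2 ⟨hx, hxS⟩), if_pos hxS]
          simp only [hT]
          omega
        · rw [if_neg (fun h => hxS (Finset.mem_of_mem_erase h)), if_neg hxS]; omega
    constructor
    · rintro ⟨h1, h2⟩
      refine ⟨Finset.erase_subset_erase _ h1, fun ⟨N, hN⟩ => h2 ⟨N, ?_⟩⟩
      rw [← e]; exact hN
    · rintro ⟨h1, h2⟩
      refine ⟨fun x hx => ?_, fun ⟨N, hN⟩ => h2 ⟨N, ?_⟩⟩
      · by_cases hxv : x = v
        · exact hxv ▸ hv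
        · exact Finset.mem_of_mem_erase (h1 (Finset.mem_erase.2 ⟨hxv, hx⟩))
      · rw [e]; exact hN
  · rw [if_neg hS]
    have e : ∀ N, pt c (insert v T) S N = pt c T S N := by
      intro N
      funext x
      unfold pt
      beta_reduce
      by_cases hxS : x ∈ S
      · have hx : x ≠ v := fun h => hS (h ▸ hxS)
        have hT : x ∈ insert v T ↔ x ∈ T := by
          rw [Finset.mem_insert]
          exact or_iff_right hx
        rw [if_pos hxS, if_pos hxS]
        simp only [hT]
      · rw [if_neg hxS, if_neg hxS]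
    unfold XX
    simp only [e]
    refine and_congr_left fun _ => ⟨fun h x hx => Finset.mem_erase.2 ⟨fun h' => hS (h' ▸ hx), h hx⟩,
      fun h => h.trans (Finset.erase_subset _ _)⟩

include hJ in
theorem exists_stable (W T : Finset V) (c : V → ℕ) (v : V) :
    ∃ M : ℕ, ∀ F, XX J W T (fun x => c x + M * dl v x) F → LL J W T c v F := by
  classical
  have h : ∀ F : Finset V, ∃ N : ℕ, F ⊆ W → ¬ LL J W T c v F →
      pt (fun x => c x + N * dl v x) T F N ∈ J := by
    intro F
    by_cases h1 : F ⊆ W ∧ ¬ LL J W T c v F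
    · have h2 : ∃ N, pt (fun x => c x + N * dl v x) T F N ∈ J := by
        by_contra h3
        exact h1.2 ⟨h1.1, h3⟩
      obtain ⟨N, hN⟩ := h2
      exact ⟨N, fun _ _ => hN⟩
    · exact ⟨0, fun h2 h3 => absurd ⟨h2, h3⟩ h1⟩
  choose N hN using h
  refine ⟨∑ F, N F, fun F hF => ?_⟩
  by_contra h1
  have h2 := hN F hF.1 h1
  refine hF.2 ⟨N F, hJ _ h2 _ fun x => ?_⟩
  have h3 : N F ≤ ∑ F, N F := Finset.single_le_sum (f := N) (fun _ _ => Nat.zero_le _)
    (Finset.mem_univ F)
  unfold pt
  beta_reduce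
  have := Nat.mul_le_mul_right (dl v x) h3
  show c x + N F * dl v x + _ ≤ c x + (∑ F, N F) * dl v x + _
  omega

/-- Vanishing of all cohomology of value `> ρ` on `W`, with the vertices of `T` at infinity. -/
def PP (k : Type*) [Field k] (J : Set (V → ℕ)) (ρ : ℤ) (W T : Finset V) : Prop :=
  ∀ c : V → ℕ, (∀ x, x ∉ W → c x = 0) → ∀ j : ℤ, ρ < j + ∑ x, (c x : ℤ) + 2 →
    CV k (XX J W T c) j

theorem sum_add_dl (c : V → ℕ) (m : ℕ) (v : V) :
    ∑ x, ((c x + m * dl v x : ℕ) : ℤ) = ∑ x, (c x : ℤ) + m := by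
  push_cast
  rw [Finset.sum_add_distrib, ← Finset.mul_sum]
  congr 1
  have : ∑ x, (dl v x : ℤ) = 1 := by
    unfold dl
    simp
  rw [this, mul_one]

theorem RCV_refl (D : Finset V → Prop) (j : ℤ) : RCV k D D j := by
  intro φ h1 _
  refine ⟨fun _ => 0, fun _ _ _ => rfl, fun S hS hc => ?_⟩
  rw [h1 S hS hc]
  unfold cob
  simp

include hJ in
theorem PP_of_insert {ρ : ℤ} {W T : Finset V} {v : V} (hv : v ∈ W) (hvT : v ∉ T)
    (h : PP k J ρ W (insert v T)) : PP k J ρ W T := by
  intro c hc j hj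
  have hDv : ∀ (c' : V → ℕ) (S : Finset V), XX J (W.erase v) T c' S → v ∉ S :=
    fun c' S hS hvS => Finset.notMem_erase v W (hS.1 hvS)
  rw [XX_eq_Cn hv hvT, CV_Cn_iff (hDv _) (fun S => XX_succ hJ)]
  have hc' : ∀ x, x ∉ W → c x + dl v x = 0 := by
    intro x hx
    have : x ≠ v := fun h => hx (h ▸ hv)
    rw [dl_ne this, hc x hx]
  have hs : ∑ x, ((c x + dl v x : ℕ) : ℤ) = ∑ x, (c x : ℤ) + 1 := by
    have := sum_add_dl c 1 v
    simpa using this
  have h1 := h c hc j hj
  have h2 := h (fun x => c x + dl v x) hc' (j - 1) (by rw [hs]; omega)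
  rw [XX_insert_eq_Cn hv hvT, CV_Cn_iff (hDv _) (fun S => XX_of_LL hJ)] at h1 h2
  rw [LL_succ hJ] at h2
  refine RCV_triple (D₂ := LL J (W.erase v) T c v) ?_ (fun S => XX_succ hJ) h1 h2
  intro S hS
  rw [← LL_succ hJ] at hS
  exact XX_of_LL hJ hS

include hJ in
theorem PP_insert {ρ : ℤ} {W T : Finset V} {v : V} (hv : v ∈ W) (hvT : v ∉ T)
    (h : PP k J ρ W T) : PP k J ρ W (insert v T) := by
  intro c hc j hj
  have hDv : ∀ (c' : V → ℕ) (S : Finset V), XX J (W.erase v) T c' S → v ∉ S :=
    fun c' S hS hvS => Finset.notMem_erase v W (hS.1 hvS)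
  rw [XX_insert_eq_Cn hv hvT, CV_Cn_iff (hDv _) (fun S => XX_of_LL hJ)]
  obtain ⟨M, hM⟩ := exists_stable hJ (W.erase v) T c v
  have key : ∀ t m : ℕ, m + t = M →
      RCV k (XX J (W.erase v) T (fun x => c x + m * dl v x)) (LL J (W.erase v) T c v) j := by
    intro t
    induction t with
    | zero =>
      intro m hm
      have hmM : m = M := by omega
      subst hmM
      have : XX J (W.erase v) T (fun x => c x + m * dl v x) = LL J (W.erase v) T c v := by
        funext F
        refine propext ⟨hM F, fun hF => ?_⟩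
        rw [← LL_add hJ m] at hF
        exact XX_of_LL hJ hF
      rw [this]
      exact RCV_refl _ _
    | succ t ih =>
      intro m hm
      have h2 := ih (m + 1) (by omega)
      have e : (fun x => c x + (m + 1) * dl v x) = fun x => (c x + m * dl v x) + dl v x := by
        funext x; ring
      rw [e] at h2
      refine RCV_triple' (D₁ := XX J (W.erase v) T (fun x => (c x + m * dl v x) + dl v x))
        ?_ (fun S => XX_succ hJ) ?_ h2
      · intro S hS
        rw [← LL_add hJ (m + 1), e] at hS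
        exact XX_of_LL hJ hS
      · have h3 := h (fun x => c x + m * dl v x) (by
          intro x hx
          have : x ≠ v := fun h => hx (h ▸ hv)
          rw [dl_ne this, hc x hx]
          simp) j (by rw [sum_add_dl]; omega)
        rw [XX_eq_Cn hv hvT, CV_Cn_iff (hDv _) (fun S => XX_succ hJ)] at h3
        exact h3
  have h0 := key M 0 (by omega)
  have e0 : (fun x => c x + 0 * dl v x) = c := by
    funext x; simp
  rw [e0] at h0
  exact h0

include hJ in
theorem PP_iff {ρ : ℤ} {W : Finset V} : PP k J ρ W ∅ ↔ PP k J ρ W W := by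
  classical
  have key : ∀ T : Finset V, T ⊆ W → (PP k J ρ W ∅ ↔ PP k J ρ W T) := by
    intro T
    induction T using Finset.induction_on with
    | empty => intro _; exact Iff.rfl
    | insert v T hv ih =>
      intro hT
      rw [ih ((Finset.subset_insert _ _).trans hT)]
      have hvW := hT (Finset.mem_insert_self _ _)
      exact ⟨PP_insert hJ hvW hv, PP_of_insert hJ hvW hv⟩
  exact key W (Finset.Subset.refl _)

end Pool.Agent.LibHelper95.Gap
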