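import Mathlib
import Pool.Agent.Lib_helper95.Gap.Passage
import Pool.Agent.Lib_helper95.KoszulMonomial

/-!
# Torsion of monomial ideals through the complexes `XX J W W a`
-/

open Finset Pool.Agent.LibHelper95.Reg Pool.Agent.H66.GapFree

namespace Pool.Agent.LibHelper95.Gap

set_option linter.unusedSectionVars false

section AA

variable {V : Type*} [Fintype V] [LinearOrder V] {k : Type*} [Field k]
variable {J : Set (V → ℕ)} (hJ : UpC J)

theorem KK_sub {W : Finset V} {c : V → ℕ} (hc : ∀ x, x ∉ W → c x = 0) {S : Finset V}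
    (h : KK J (fun x => c x + ic W x) S) : S ⊆ W := by
  obtain ⟨c', _, h2⟩ := h
  intro x hx
  by_contra hxW
  have h3 := h2 x
  beta_reduce at h3
  rw [if_pos hx, ic_notMem hxW, hc x hxW] at h3
  omega

theorem XX_iff_KK {W : Finset V} {c : V → ℕ} (F : Finset V) :
    XX J W ∅ c F ↔ F ⊆ W ∧ ¬ KK J (fun x => c x + ic W x) (W \ F) := by
  unfold XX
  refine and_congr_right fun hF => not_congr ?_
  constructor
  · rintro ⟨N, hN⟩
    refine ⟨_, hN, fun x => ?_⟩
    unfold pt
    beta_reduce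
    by_cases h1 : x ∈ F
    · have h2 : x ∉ W \ F := fun h => (Finset.mem_sdiff.1 h).2 h1
      rw [if_pos h1, if_neg h2, if_neg (Finset.notMem_empty x), ic_mem (hF h1)]
    · rw [if_neg h1]
      by_cases h3 : x ∈ W
      · rw [if_pos (Finset.mem_sdiff.2 ⟨h3, h1⟩), ic_mem h3]
      · rw [if_neg (fun h => h3 (Finset.mem_sdiff.1 h).1), ic_notMem h3]
  · rintro ⟨c', h1, h2⟩
    refine ⟨0, ?_⟩
    have : pt c ∅ F 0 = c' := by
      funext x
      have h3 := h2 x
      beta_reduce at h3
      unfold pt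
      by_cases h1 : x ∈ F
      · have h2 : x ∉ W \ F := fun h => (Finset.mem_sdiff.1 h).2 h1
        rw [if_neg h2, ic_mem (hF h1)] at h3
        rw [if_pos h1, if_neg (Finset.notMem_empty x)]
        omega
      · rw [if_neg h1]
        by_cases h4 : x ∈ W
        · rw [if_pos (Finset.mem_sdiff.2 ⟨h4, h1⟩), ic_mem h4] at h3
          omega
        · rw [if_neg (fun h => h4 (Finset.mem_sdiff.1 h).1), ic_notMem h4] at h3
          omega
    rw [this]; exact h1

include hJ in
theorem AV_KK_iff {W : Finset V} (hW : W.Nonempty) {c : V → ℕ} (hc : ∀ x, x ∉ W → c x = 0)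
    {i : ℕ} {j : ℤ} (hij : (i : ℤ) + j + 2 = W.card) :
    AV k (KK J (fun x => c x + ic W x)) i ↔ CV k (XX J W ∅ c) j := by
  have hKW : ∀ S, KK J (fun x => c x + ic W x) S → S ⊆ W := fun S hS => KK_sub hc hS
  exact ⟨fun h => CV_of_AV hW (KK_down hJ) hKW (fun F => XX_iff_KK F) hij h,
    fun h => AV_of_CV hW hKW (fun F => XX_iff_KK F) hij h⟩

end AA

section BB

variable {n : ℕ} {k : Type*} [Field k]
variable {I : Ideal (MvPolynomial (Fin n) k)} {J : Set (Fin n → ℕ)} (hJ : UpC J)
  (hI : ∀ p, p ∈ I ↔ ∀ c ∈ p.support, (⇑c) ∈ J)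

include hJ hI in
/-- Upper bound. -/
theorem le_of_PP (h0 : (fun _ => 0) ∉ J) {ρ : ℤ}
    (h : ∀ W : Finset (Fin n), W.Nonempty → PP k J ρ W W) {i e : ℕ}
    (ht : TorNonzero I i (i + e)) : (e : ℤ) ≤ ρ := by
  by_contra hcon
  push Not at hcon
  refine not_tor_of_AV (U := J) hI (i := i) (d := i + e) (fun b hb => ?_) ht
  set W : Finset (Fin n) := Finset.univ.filter fun x => 1 ≤ b x with hWdef
  have hmem : ∀ x, x ∈ W ↔ 1 ≤ b x := by
    intro x; rw [hWdef, Finset.mem_filter]; simp
  set c : Fin n → ℕ := fun x => b x - ic W x with hc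
  have hbc : b = fun x => c x + ic W x := by
    funext x
    show b x = b x - ic W x + ic W x
    by_cases hx : x ∈ W
    · have := (hmem x).1 hx
      rw [ic_mem hx]; omega
    · rw [ic_notMem hx]; omega
  have hcW : ∀ x, x ∉ W → c x = 0 := by
    intro x hx
    show b x - ic W x = 0
    have : ¬ 1 ≤ b x := fun h => hx ((hmem x).2 h)
    omega
  rcases W.eq_empty_or_nonempty with hW | hW
  · -- everything is void
    have hvoid : ∀ S, ¬ KK J b S := by
      rintro S ⟨c', h1, h2⟩
      apply h0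
      have : c' = fun _ => 0 := by
        funext x
        have h3 := h2 x
        have h4 : ¬ 1 ≤ b x := fun h => by
          have := (hmem x).2 h
          rw [hW] at this
          exact absurd this (Finset.notMem_empty x)
        omega
      rw [← this]; exact h1
    intro φ hφ _
    refine ⟨fun _ => 0, fun S hS => absurd rfl hS, fun S => ?_⟩
    have h1 : φ S = 0 := by
      by_contra hne
      exact hvoid S (hφ S hne).1
    rw [h1]
    simp [bd]
  · rw [hbc, AV_KK_iff hJ hW hcW (j := (W.card : ℤ) - i - 2) (by ring)]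
    refine (PP_iff hJ).2 (h W hW) c hcW _ ?_
    have h1 : ∑ x, (b x : ℤ) = i + e := by
      rw [← Nat.cast_sum, hb]; push_cast; ring
    have h2 : ∑ x, (b x : ℤ) = ∑ x, (c x : ℤ) + W.card := by
      rw [hbc]
      push_cast
      rw [Finset.sum_add_distrib]
      congr 1
      rw [← Nat.cast_sum, sum_ic]
    omega

include hJ hI in
/-- Lower bound. -/
theorem exists_of_not_PP {ρ : ℤ} {W : Finset (Fin n)} (hW : W.Nonempty)
    (h : ¬ PP k J ρ W W) : ∃ i e : ℕ, TorNonzero I i (i + e) ∧ ρ < e := by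
  rw [← PP_iff hJ] at h
  unfold PP at h
  push Not at h
  obtain ⟨c, hc, j, hj, hCV⟩ := h
  have h1 : j + 1 < W.card := by
    by_contra hcon
    push Not at hcon
    exact hCV (CV_top hW (XX_down hJ W ∅ c) (fun F hF => hF.1) hcon)
  have h2 : 0 ≤ j + 1 := by
    by_contra hcon
    push Not at hcon
    exact hCV (CV_of_card fun S _ => by omega)
  obtain ⟨i, hi⟩ : ∃ i : ℕ, (i : ℤ) = W.card - j - 2 := ⟨(W.card - j - 2).toNat, by omega⟩
  have h3 : ¬ AV k (KK J (fun x => c x + ic W x)) i := by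
    rw [AV_KK_iff hJ hW hc (j := j) (by omega)]
    exact hCV
  have hs : ∑ x, (c x + ic W x) = ∑ x, c x + W.card := by
    rw [Finset.sum_add_distrib, sum_ic]
  have hcast : ∑ x, (c x : ℤ) = ((∑ x, c x : ℕ) : ℤ) := by push_cast; rfl
  rw [hcast] at hj
  have h4 := tor_of_not_AV (U := J) hI (d := ∑ x, (c x + ic W x)) rfl h3
  refine ⟨i, ∑ x, c x + W.card - i, ?_, ?_⟩
  · rw [hs] at h4
    have : i + (∑ x, c x + W.card - i) = ∑ x, c x + W.card := by omega
    rw [this]
    exact h4
  · omega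

end BB

end Pool.Agent.LibHelper95.Gap
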