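import Mathlib
import Pool.Agent.Lib_helper95.Gap.Tor
import Pool.Agent.Lib_helper95.EdgeIdealPower

/-!
# Powers of edge ideals: the part `|a| < q`, and lower bounds
-/

open Finset Pool.Agent.LibHelper95.Reg Pool.Agent.H66.GapFree

namespace Pool.Agent.LibHelper95.Gap

set_option linter.unusedSectionVars false

section AA

variable {V : Type*} [Fintype V] [LinearOrder V] {k : Type*} [Field k] {G : SimpleGraph V}

theorem Pw_UpC (q : ℕ) : UpC (Pw G q) := fun _ hf _ h => Pw_up hf h

theorem dg_replicate {u v : V} (h : u ≠ v) (q : ℕ) (x : V) :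
    dg (Multiset.replicate q s(u, v)) x = q * dl u x + q * dl v x := by
  induction q with
  | zero => simp [dg]
  | succ q ih =>
    rw [Multiset.replicate_succ, dg_cons h, ih]
    ring

theorem isE_replicate {u v : V} (h : G.Adj u v) (q : ℕ) :
    IsE G (Multiset.replicate q s(u, v)) := by
  intro e he
  rw [Multiset.eq_of_mem_replicate he]
  exact h

/-- The exponent `q` on an edge. -/
theorem mem_Pw_of_adj {u v : V} (h : G.Adj u v) {q : ℕ} {f : V → ℕ} (hu : q ≤ f u)
    (hv : q ≤ f v) : f ∈ Pw G q := by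
  refine ⟨Multiset.replicate q s(u, v), isE_replicate h q, Multiset.card_replicate _ _,
    fun x => ?_⟩
  rw [dg_replicate h.ne]
  by_cases hxu : x = u
  · subst hxu
    rw [dl_self, dl_ne h.ne]; omega
  · by_cases hxv : x = v
    · subst hxv
      rw [dl_self, dl_ne hxu]; omega
    · rw [dl_ne hxu, dl_ne hxv]; omega

theorem card_le_of_ind {F : Finset V} (hF : Ind G F) (M : Multiset (Sym2 V)) :
    IsE G M → M.card ≤ ∑ x ∈ Fᶜ, dg M x := by
  induction M using Multiset.induction with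
  | empty => intro _; simp
  | cons e M ih =>
    intro hM
    have hM' : IsE G M := fun e' he' => hM e' (Multiset.mem_cons_of_mem he')
    have h1 := ih hM'
    induction e using Sym2.ind with
    | _ u v =>
      have huv : G.Adj u v := hM _ (Multiset.mem_cons_self _ _)
      have h2 : ∑ x ∈ Fᶜ, dg (s(u, v) ::ₘ M) x =
          ∑ x ∈ Fᶜ, dg M x + ∑ x ∈ Fᶜ, dl u x + ∑ x ∈ Fᶜ, dl v x := by
        rw [← Finset.sum_add_distrib, ← Finset.sum_add_distrib]
        exact Finset.sum_congr rfl fun x _ => dg_cons huv.ne M x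
      have h3 : ∀ y, y ∉ F → 1 ≤ ∑ x ∈ Fᶜ, dl y x := by
        intro y hy
        have h4 : dl y y ≤ ∑ x ∈ Fᶜ, dl y x :=
          Finset.single_le_sum (f := fun x => dl y x) (fun _ _ => Nat.zero_le _)
            (Finset.mem_compl.2 hy)
        rw [dl_self] at h4
        exact h4
      rw [h2, Multiset.card_cons]
      by_cases hu : u ∈ F
      · have hv : v ∉ F := fun hv => hF u hu v hv huv
        have := h3 v hv
        omega
      · have := h3 u hu
        omega

/-- For small exponents the complex is the independence complex. -/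
theorem XX_small {q : ℕ} {W : Finset V} {a : V → ℕ} (ha : ∑ x, a x < q) (F : Finset V) :
    XX (Pw G q) W W a F ↔ F ⊆ W ∧ Ind G F := by
  unfold XX
  refine and_congr_right fun hFW => ⟨?_, ?_⟩
  · intro h u hu v hv huv
    refine h ⟨q, mem_Pw_of_adj huv ?_ ?_⟩
    · unfold pt
      rw [if_pos hu, if_pos (hFW hu)]; omega
    · unfold pt
      rw [if_pos hv, if_pos (hFW hv)]; omega
  · rintro hF ⟨N, M, hM, hc, hd⟩
    have h1 := card_le_of_ind hF M hM
    have h2 : ∑ x ∈ Fᶜ, dg M x ≤ ∑ x ∈ Fᶜ, a x := by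
      refine Finset.sum_le_sum fun x hx => ?_
      have h3 := hd x
      unfold pt at h3
      rw [if_neg (Finset.mem_compl.1 hx)] at h3
      omega
    have h3 : ∑ x ∈ Fᶜ, a x ≤ ∑ x, a x :=
      Finset.sum_le_sum_of_subset (Finset.subset_univ _)
    omega

theorem XX_small_eq {q : ℕ} {W : Finset V} {a : V → ℕ} (ha : ∑ x, a x < q) :
    XX (Pw G q) W W a = XX (Pw G 1) W W (fun _ => 0) := by
  funext F
  refine propext ?_
  rw [XX_small ha, XX_small (by simp)]

/-- For `q = 1` and a nonzero exponent the complex is a cone. -/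
theorem CV_one {W : Finset V} {a : V → ℕ} {v : V} (hv : v ∈ W) (hav : 1 ≤ a v) (j : ℤ) :
    CV k (XX (Pw G 1) W W a) j := by
  refine CV_cone v (fun S hS => ?_) j
  refine ⟨Finset.insert_subset hv hS.1, ?_⟩
  rintro ⟨N, M, hM, hc, hd⟩
  refine hS.2 ⟨N + 1, M, hM, hc, fun x => ?_⟩
  obtain ⟨e, he⟩ := Multiset.card_eq_one.1 hc
  have h1 : dg M x ≤ 1 := by
    unfold dg
    exact (Multiset.countP_le_card _ _).trans (le_of_eq hc)
  have h2 := hd x
  unfold pt at h2 ⊢
  by_cases hxS : x ∈ S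
  · rw [if_pos hxS, if_pos (hS.1 hxS)]; omega
  · by_cases hxv : x = v
    · subst hxv
      omega
    · have : x ∉ insert v S := by
        rw [Finset.mem_insert]
        exact fun h => h.elim hxv hxS
      rw [if_neg this] at h2
      omega

/-- No generators of degree less than `2 q`. -/
theorem sum_ge_of_mem_Pw {q : ℕ} {f : V → ℕ} (hf : f ∈ Pw G q) : 2 * q ≤ ∑ x, f x := by
  obtain ⟨M, hM, hc, hd⟩ := hf
  rw [← hc, ← sum_dg hM]
  exact Finset.sum_le_sum fun x _ => hd x

/-- A generator. -/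
theorem not_AV_generator {u v : V} (h : G.Adj u v) (q : ℕ) :
    ¬ AV k (KK (Pw G q) (fun x => q * dl u x + q * dl v x)) 0 := by
  classical
  intro hAV
  have hsum : ∑ x, (q * dl u x + q * dl v x) = 2 * q := by
    rw [Finset.sum_add_distrib, ← Finset.mul_sum, ← Finset.mul_sum]
    have : ∀ y : V, ∑ x, dl y x = 1 := by
      intro y; unfold dl; simp
    rw [this, this]; ring
  have honly : ∀ S, KK (Pw G q) (fun x => q * dl u x + q * dl v x) S → S = ∅ := by
    rintro S ⟨c, hc, h2⟩
    by_contra hne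
    obtain ⟨y, hy⟩ := Finset.nonempty_iff_ne_empty.2 hne
    have h3 := sum_ge_of_mem_Pw hc
    have h4 : ∑ x, c x + S.card = 2 * q := by
      rw [← hsum, ← sum_ic, ← Finset.sum_add_distrib]
      exact Finset.sum_congr rfl fun x _ => h2 x
    have : 0 < S.card := Finset.card_pos.2 ⟨y, hy⟩
    omega
  obtain ⟨ψ, hψ1, hψ2⟩ := hAV (fun S => if S = ∅ then 1 else 0) (by
    intro S hS
    have hS' : S = ∅ := by
      by_contra hc; exact hS (if_neg hc)
    subst hS'
    refine ⟨⟨fun x => q * dl u x + q * dl v x, ?_, fun x => by simp⟩, Finset.card_empty⟩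
    exact mem_Pw_of_adj h (by rw [dl_self]; omega) (by rw [dl_self]; omega)) (by
    intro S
    refine bd_eq_zero fun w _ => ?_
    exact if_neg (Finset.insert_ne_empty _ _))
  have h0 := hψ2 ∅
  rw [if_pos rfl] at h0
  have h1 : bd ψ ∅ = 0 := by
    refine bd_eq_zero fun w _ => ?_
    by_contra hne
    exact Finset.insert_ne_empty w ∅ (honly _ (hψ1 _ hne).1)
  rw [h1] at h0
  exact one_ne_zero h0

end AA

section BB

variable {n : ℕ} {k : Type*} [Field k] {G : SimpleGraph (Fin n)}

theorem zero_notMem_Pw {q : ℕ} (hq : 1 ≤ q) : (fun _ => 0) ∉ Pw G q := by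
  intro h
  have := sum_ge_of_mem_Pw h
  simp at this
  omega

theorem hI_pow (q : ℕ) (p : MvPolynomial (Fin n) k) :
    p ∈ (edgeIdeal k G) ^ q ↔ ∀ c ∈ p.support, (⇑c) ∈ Pw G q := mem_edgeIdeal_pow q p

theorem hI_one (p : MvPolynomial (Fin n) k) :
    p ∈ edgeIdeal k G ↔ ∀ c ∈ p.support, (⇑c) ∈ Pw G 1 := by
  have := mem_edgeIdeal_pow (G := G) 1 p
  rwa [pow_one] at this

theorem tor_zero {u v : Fin n} (h : G.Adj u v) (q : ℕ) :
    TorNonzero (edgeIdeal k G ^ q) 0 (0 + 2 * q) := by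
  refine tor_of_not_AV (U := Pw G q) (hI_pow q) (a := fun x => q * dl u x + q * dl v x) ?_
    (not_AV_generator h q)
  rw [Finset.sum_add_distrib, ← Finset.mul_sum, ← Finset.mul_sum]
  have : ∀ y : Fin n, ∑ x, dl y x = 1 := by
    intro y; unfold dl; simp
  rw [this, this]; ring

/-- From `reg I ≤ r` to the vanishing for independence complexes. -/
theorem CV_ind_of_le {r : ℤ} (hr : ∀ i e : ℕ, TorNonzero (edgeIdeal k G) i (i + e) → (e : ℤ) ≤ r)
    {W : Finset (Fin n)} (hW : W.Nonempty) {j : ℤ} (hj : r < j + 2) :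
    CV k (XX (Pw G 1) W W (fun _ => 0)) j := by
  have h : PP k (Pw G 1) r W W := by
    by_contra hcon
    obtain ⟨i, e, h1, h2⟩ := exists_of_not_PP (Pw_UpC 1) hI_one hW hcon
    have := hr i e h1
    omega
  exact h _ (fun _ _ => rfl) j (by simpa using hj)

/-- From `reg I ≥ r` to a nonvanishing of an independence complex. -/
theorem exists_ind {r : ℤ} {i e : ℕ} (ht : TorNonzero (edgeIdeal k G) i (i + e)) (hr : r ≤ e) :
    ∃ W : Finset (Fin n), W.Nonempty ∧ ∃ j : ℤ, r ≤ j + 2 ∧
      ¬ CV k (XX (Pw G 1) W W (fun _ => 0)) j := by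
  by_contra hcon
  push Not at hcon
  have h : ∀ W : Finset (Fin n), W.Nonempty → PP k (Pw G 1) (r - 1) W W := by
    intro W hW c hc j hj
    by_cases h0 : ∃ v, 1 ≤ c v
    · obtain ⟨v, hv⟩ := h0
      have hvW : v ∈ W := by
        by_contra hvW
        rw [hc v hvW] at hv
        omega
      exact CV_one hvW hv j
    · push Not at h0
      have : c = fun _ => 0 := by
        funext x; have := h0 x; omega
      subst this
      refine hcon W hW j ?_
      simp at hj
      omega
  have := le_of_PP (Pw_UpC 1) hI_one (zero_notMem_Pw le_rfl) h ht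
  omega

/-- `reg I ^ q ≥ reg I + q - 1` for every graph. -/
theorem tor_pow {r : ℕ} {i e : ℕ} (ht : TorNonzero (edgeIdeal k G) i (i + e)) (hr : r ≤ e)
    {q : ℕ} (hq : 1 ≤ q) :
    ∃ i' e' : ℕ, TorNonzero (edgeIdeal k G ^ q) i' (i' + e') ∧ r + q - 1 ≤ e' := by
  obtain ⟨W, hW, j, hj, hCV⟩ := exists_ind (r := r) ht (by exact_mod_cast hr)
  obtain ⟨w, hw⟩ := hW
  have hsum : ∑ x, (q - 1) * dl w x = q - 1 := by
    rw [← Finset.mul_sum]
    have : ∑ x, dl w x = 1 := by unfold dl; simp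
    rw [this, mul_one]
  have hn : ¬ PP k (Pw G q) ((r : ℤ) + q - 2) W W := by
    intro h
    refine hCV ?_
    have h1 := h (fun x => (q - 1) * dl w x) (by
      intro x hx
      have : x ≠ w := fun h => hx (h ▸ hw)
      rw [dl_ne this, mul_zero]) j (by
      have hcast : ∑ x, (((q - 1) * dl w x : ℕ) : ℤ) = ((∑ x, (q - 1) * dl w x : ℕ) : ℤ) := by
        rw [Nat.cast_sum]
      rw [hcast, hsum]
      omega)
    rw [XX_small_eq (by rw [hsum]; omega)] at h1
    exact h1
  obtain ⟨i', e', h1, h2⟩ := exists_of_not_PP (Pw_UpC q) (hI_pow q) ⟨w, hw⟩ hn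
  exact ⟨i', e', h1, by omega⟩

/-- The hypothesis on large exponents. -/
def Big (k : Type*) [Field k] (G : SimpleGraph (Fin n)) (q : ℕ) : Prop :=
  ∀ (W : Finset (Fin n)), W.Nonempty → ∀ a : Fin n → ℕ, (∀ x, x ∉ W → a x = 0) → q ≤ ∑ x, a x →
    ∀ j : ℤ, 2 * (q : ℤ) - 1 - ∑ x, (a x : ℤ) ≤ j → CV k (XX (Pw G q) W W a) j

/-- The regularity formula, given the vanishing for large exponents. -/
theorem hasReg_pow {u v : Fin n} (huv : G.Adj u v) {q r : ℕ} (hq : 1 ≤ q)
    (hbig : Big k G q) (hr : HasReg (edgeIdeal k G) r) :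
    HasReg (edgeIdeal k G ^ q) (max (2 * q) (r + q - 1)) := by
  obtain ⟨⟨i0, hi0⟩, hub⟩ := hr
  have hub' : ∀ i e : ℕ, TorNonzero (edgeIdeal k G) i (i + e) → (e : ℤ) ≤ r := by
    intro i e h
    exact_mod_cast hub ⟨i, h⟩
  have hupper : ∀ i e : ℕ, TorNonzero (edgeIdeal k G ^ q) i (i + e) →
      e ≤ max (2 * q) (r + q - 1) := by
    intro i e h
    have : (e : ℤ) ≤ (max (2 * q) (r + q - 1) : ℕ) := by
      refine le_of_PP (Pw_UpC q) (hI_pow q) (zero_notMem_Pw hq) (fun W hW c hc j hj => ?_) h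
      have hcast : ∑ x, (c x : ℤ) = ((∑ x, c x : ℕ) : ℤ) := by push_cast; rfl
      have hm1 : 2 * q ≤ max (2 * q) (r + q - 1) := le_max_left _ _
      have hm2 : r + q - 1 ≤ max (2 * q) (r + q - 1) := le_max_right _ _
      by_cases h1 : q ≤ ∑ x, c x
      · refine hbig W hW c hc h1 j ?_
        omega
      · push Not at h1
        rw [XX_small_eq h1]
        refine CV_ind_of_le hub' hW ?_
        rw [hcast] at hj
        omega
    exact_mod_cast this
  refine ⟨?_, fun e he => ?_⟩
  · rcases le_total (2 * q) (r + q - 1) with hle | hle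
    · obtain ⟨i', e', h1, h2⟩ := tor_pow hi0 le_rfl hq
      have h3 := hupper i' e' h1
      have h4 : e' = max (2 * q) (r + q - 1) := by
        rw [max_eq_right hle] at h3 ⊢
        omega
      exact ⟨i', by rw [← h4]; exact h1⟩
    · rw [max_eq_left hle]
      exact ⟨0, tor_zero huv q⟩
  · obtain ⟨i, hi⟩ := he
    exact hupper i e hi

end BB

end Pool.Agent.LibHelper95.Gap
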