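import Mathlib
import Pool.Agent.Lib_helper95.Gap.Edge
import Pool.Agent.Lib_helper66.GapFree.Big

/-!
# Regularity of powers of gap-free edge ideals
-/

open Finset Pool.Agent.LibHelper95.Reg Pool.Agent.H66.GapFree

namespace Pool.Agent.LibHelper95.Gap

variable {n : ℕ} {k : Type*} [Field k] {G : SimpleGraph (Fin n)}

theorem big_of_gap (hG : Gap G) (q : ℕ) : Big k G q := by
  intro W _ a ha hq j hj
  have h := CV_big (k := k) hG a W ha q hq j hj
  have e : XX (Pw G q) W W a = fun F => F ⊆ W ∧ ¬ ∃ N : ℕ,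
      (fun x => a x + if x ∈ F then N else 0) ∈ Pw G q := by
    funext F
    refine propext (and_congr_right fun hF => not_congr (exists_congr fun N => ?_))
    have : pt a W F N = fun x => a x + if x ∈ F then N else 0 := by
      funext x
      unfold pt
      by_cases hx : x ∈ F
      · rw [if_pos hx, if_pos hx, if_pos (hF hx)]
      · rw [if_neg hx, if_neg hx]
    rw [this]
  rw [e]
  exact h

/-- For a gap-free graph `reg I ^ q = max (2 q, reg I + q - 1)`. -/
theorem hasReg_pow_gap (hG : Gap G) {u v : Fin n} (huv : G.Adj u v) {q r : ℕ} (hq : 1 ≤ q)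
    (hr : HasReg (edgeIdeal k G) r) :
    HasReg (edgeIdeal k G ^ q) (max (2 * q) (r + q - 1)) :=
  hasReg_pow huv hq (big_of_gap hG q) hr

/-- A crude bound: `reg I(G) ≤ n` (the number of vertices). -/
theorem tor_le (i e : ℕ) (h : TorNonzero (edgeIdeal k G) i (i + e)) : e ≤ n + 1 := by
  have h1 : (e : ℤ) ≤ (n + 1 : ℕ) := by
    refine le_of_PP (Pw_UpC 1) hI_one (zero_notMem_Pw le_rfl) (fun W hW c hc j hj => ?_) h
    by_cases h0 : ∃ v, 1 ≤ c v
    · obtain ⟨v, hv⟩ := h0
      have hvW : v ∈ W := by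
        by_contra hvW
        rw [hc v hvW] at hv
        omega
      exact CV_one hvW hv j
    · push Not at h0
      have hc0 : c = fun _ => 0 := by
        funext x; have := h0 x; omega
      subst hc0
      refine CV_of_card fun S hS hcard => ?_
      have h2 := Finset.card_le_univ S
      rw [Fintype.card_fin] at h2
      simp at hj
      omega
  exact_mod_cast h1

/-- The regularity of an edge ideal exists. -/
theorem exists_hasReg {u v : Fin n} (huv : G.Adj u v) : ∃ r, HasReg (edgeIdeal k G) r ∧ 2 ≤ r := by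
  have h0 : 2 ∈ {e : ℕ | ∃ i, TorNonzero (edgeIdeal k G) i (i + e)} := by
    refine ⟨0, ?_⟩
    have := tor_zero (k := k) huv 1
    rwa [pow_one, mul_one] at this
  have hb : BddAbove {e : ℕ | ∃ i, TorNonzero (edgeIdeal k G) i (i + e)} :=
    ⟨n + 1, fun e ⟨i, hi⟩ => tor_le i e hi⟩
  refine ⟨sSup {e : ℕ | ∃ i, TorNonzero (edgeIdeal k G) i (i + e)},
    ⟨Nat.sSup_mem ⟨2, h0⟩ hb, fun e he => le_csSup hb he⟩, le_csSup hb h0⟩

/-- Upper bound form. -/
theorem tor_pow_le (hG : Gap G) {u v : Fin n} (huv : G.Adj u v) {q r : ℕ} (hq : 1 ≤ q)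
    (hr : HasReg (edgeIdeal k G) r) {i e : ℕ} (h : TorNonzero (edgeIdeal k G ^ q) i (i + e)) :
    e ≤ max (2 * q) (r + q - 1) :=
  (hasReg_pow_gap hG huv hq hr).2 ⟨i, h⟩

/-- For `q ≥ reg I - 1` the power is linear. -/
theorem hasReg_linear (hG : Gap G) {u v : Fin n} (huv : G.Adj u v) {q r : ℕ}
    (hr : HasReg (edgeIdeal k G) r) (h2 : 2 ≤ r) (hq : r ≤ q + 1) :
    HasReg (edgeIdeal k G ^ q) (2 * q) := by
  have h := hasReg_pow_gap hG huv (q := q) (by omega) hr
  rwa [max_eq_left (by omega)] at h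

theorem two_le_reg {u v : Fin n} (huv : G.Adj u v) {r : ℕ}
    (hr : HasReg (edgeIdeal k G) r) : 2 ≤ r := by
  refine hr.2 ⟨0, ?_⟩
  have := tor_zero (k := k) huv 1
  rwa [pow_one, mul_one] at this

end Pool.Agent.LibHelper95.Gap
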