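import Mathlib
import Pool.Agent.Lib_helper95.Gap.Main

/-!
# Induced matching number
-/

open Pool.Agent.LibHelper95 Pool.Agent.LibHelper95.Reg Pool.Agent.H66.GapFree

namespace Pool.Agent.LibHelper95.Gap

variable {n : ℕ}

/-- `M` is an induced matching of `G`: a set of edges of `G`, pairwise disjoint and such that no
edge of `G` joins two of them. -/
def IsInducedMatching (G : SimpleGraph (Fin n)) (M : Finset (Sym2 (Fin n))) : Prop :=
  (∀ e ∈ M, e ∈ G.edgeSet) ∧
    ∀ e ∈ M, ∀ f ∈ M, e ≠ f → ∀ x ∈ e, ∀ y ∈ f, x ≠ y ∧ ¬ G.Adj x y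

/-- `im(G) = m`: the largest size of an induced matching of `G` is `m`. -/
def HasIm (G : SimpleGraph (Fin n)) (m : ℕ) : Prop :=
  IsGreatest {s : ℕ | ∃ M, IsInducedMatching G M ∧ M.card = s} m

theorem exists_adj_of_im {G : SimpleGraph (Fin n)} (h : HasIm G 1) : ∃ u v, G.Adj u v := by
  obtain ⟨⟨M, hM, hc⟩, _⟩ := h
  obtain ⟨e, rfl⟩ := Finset.card_eq_one.1 hc
  have he := hM.1 e (Finset.mem_singleton_self e)
  induction e using Sym2.ind with
  | _ u v => exact ⟨u, v, he⟩

theorem gap_of_im {G : SimpleGraph (Fin n)} (h : HasIm G 1) : Gap G := by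
  intro x y z w hxy hzw
  by_contra hcon
  push Not at hcon
  obtain ⟨h1, h2, h3, h4, h5, h6, h7, h8⟩ := hcon
  have hne : s(x, y) ≠ s(z, w) := by
    intro h
    rw [Sym2.eq_iff] at h
    rcases h with ⟨h, _⟩ | ⟨h, _⟩
    · exact h1 h
    · exact h2 h
  have hle := h.2 ⟨{s(x, y), s(z, w)}, ⟨?_, ?_⟩, Finset.card_pair hne⟩
  · omega
  · intro e he
    rw [Finset.mem_insert, Finset.mem_singleton] at he
    rcases he with rfl | rfl
    · exact hxy
    · exact hzw
  · intro e he f hf hef a ha b hb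
    rw [Finset.mem_insert, Finset.mem_singleton] at he hf
    rcases he with rfl | rfl <;> rcases hf with rfl | rfl
    · exact absurd rfl hef
    · rw [Sym2.mem_iff] at ha hb
      rcases ha with rfl | rfl <;> rcases hb with rfl | rfl
      · exact ⟨h1, h5⟩
      · exact ⟨h2, h6⟩
      · exact ⟨h3, h7⟩
      · exact ⟨h4, h8⟩
    · rw [Sym2.mem_iff] at ha hb
      rcases ha with rfl | rfl <;> rcases hb with rfl | rfl
      · exact ⟨fun h => h1 h.symm, fun h => h5 h.symm⟩
      · exact ⟨fun h => h3 h.symm, fun h => h7 h.symm⟩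
      · exact ⟨fun h => h2 h.symm, fun h => h6 h.symm⟩
      · exact ⟨fun h => h4 h.symm, fun h => h8 h.symm⟩
    · exact absurd rfl hef

end Pool.Agent.LibHelper95.Gap
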